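import Mathlib
import Pool.Agent.H21.TC.GMain
import Pool.Graph.R_pool_sql_team_seeded_c8625f6e.K4H21.CT.SplitPrime

/-!
# The CM fields for which all Tate classes are Lefschetz classes

By Honda and Tate the simple abelian varieties over the finite field with `q` elements correspond to
the conjugacy classes of Weil `q`-numbers `π`, and (Weil, Tate) the Frobenius endomorphism acts
semisimply on the first cohomology with all conjugates of `π` as eigenvalues, with the same
multiplicity; the cohomology of an abelian variety is the exterior algebra of the first cohomology. By
Tate's theorem the Tate classes of degree two are linear combinations of classes of divisors. So the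
Tate conjecture is true for all powers of the abelian variety if all Tate classes (over all finite
extensions) are polynomials in Tate classes of degree two (`OnlyLefschetz`).

**Theorem.** Let `F` be a CM field (not necessarily Galois over `ℚ`), with complex conjugation `c`.
The group of automorphisms of `ℂ` acts on the rational functions on the set of the complex embeddings
of `F`; a function is odd if `f (conj φ) = - f φ`. The following are equivalent:

1. all Weil numbers of `F`, for all `q`, have only Lefschetz classes;
2. there is a prime `p` that splits completely in `F` such that all Weil `p ^ a`-numbers `π` of `F`
  with `ℚ(π ^ n) = F` for all `n` (the abelian variety is absolutely simple, and `F` is the centre of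
  its endomorphism algebra) have only Lefschetz classes, on the powers of the abelian variety;
3. every stable subspace `W` of the space of odd functions is given by a subfield `E` of `F`: `W` is
  the space of all odd functions whose value at `φ` depends only on the restriction of `φ` to `E`;
4. the space of odd functions is irreducible, or there is an automorphism `σ` of `F` with `σ² = 1`
  such that the spaces of odd functions invariant under `σ` and under `σ c` are irreducible and not
  isomorphic (their sum is the space of odd functions).

There is no assumption about the slopes or the Galois group of the normal closure of `F`. If
condition 4 is not satisfied there are exotic Tate classes for every completely split prime.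

The proof. By Kronecker's theorem the multiplicative relations between the conjugates of `π` are given
by the linear relations between the translates of the slope function `w`, an odd function on the
embeddings. All Tate classes are Lefschetz classes if and only if all odd relations come from
coincidences of translates (`criterion`). Weil numbers with given slopes at a completely split prime
are constructed from a generator of a power of a prime ideal (`exists_weil_slopes`). So condition 2
implies that an odd function with only trivial coincidences generates the space of odd functions. A
space which is not contained in the union of the spaces with a nontrivial coincidence contains such a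
function, so every proper stable subspace `W` has a nontrivial coincidence (`propB_of_good`). Let `f₀`
be the orthogonal projection of `[φ] - [conj φ]` to `W`. Then `2 f₀(φ) = ‖f₀‖² ≥ 4 f₀(φ)²`, so
`f₀(φ) ≤ 1/2`, and the same is true for the orthogonal complement of `W`; the sum of the two numbers is
`1`, so there is equality, all classes of coincidences of `W` have two elements, and `W` is determined
by its coincidences (`two_of_propB`, `eq_oddR_of_propB`). This gives the subfield `E` with
`[F : E] = 2`, the involution `σ`, and irreducibility (`irred_of_propB`). A nonzero map between the two
spaces would give infinitely many stable subspaces (`noMaps_of_propB`).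
-/

set_option autoImplicit false

universe u

namespace Pool.Agent.Results.MP_ee618e_ag.AllCMFields

open NumberField Module Pool.Agent.H21.TC

/-- The prime `p` splits completely in the number field `F`: there are `[F : ℚ]` embeddings of `F` in
the field of `p`-adic numbers. -/
def SplitsCompletely (p : ℕ) [Fact p.Prime] (F : Type) [Field F] [NumberField F] : Prop :=
  Nat.card (F →+* ℚ_[p]) = finrank ℚ F

theorem result (F : Type) [Field F] [NumberField F] [IsCMField F]
    (Ω : Type u) [Field Ω] [IsAlgClosed Ω] [CharZero Ω] :
    List.TFAE
      [∀ (p : ℕ) [Fact p.Prime] (a : ℕ) (π : F), IsWeilNumber (p ^ a) π →
          OnlyLefschetz Ω (p ^ a) π,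
        ∃ (p : ℕ) (_ : Fact p.Prime), SplitsCompletely p F ∧
          ∀ (a : ℕ) (π : F), 0 < a → IsWeilNumber (p ^ a) π →
            (∀ n : ℕ, 0 < n → IntermediateField.adjoin ℚ {π ^ n} = ⊤) →
            OnlyLefschetzOnPowers Ω (p ^ a) π,
        ∀ W : Submodule ℚ ((F →+* ℂ) → ℚ), IsStable W → W ≤ oddFunctions F →
          ∃ E : Subfield F, W = oddOfSubfield E,
        IsIrred (oddFunctions F) ∨ ∃ σ : F ≃+* F, (∀ x, σ (σ x) = x) ∧
          IsIrred (oddInvariants σ) ∧ IsIrred (oddInvariants (σ.trans (conjRing F))) ∧
          NoMaps (oddInvariants σ) (oddInvariants (σ.trans (conjRing F)))] := by
  tfae_have 1 → 2 := by
    intro h
    obtain ⟨p, hp, -, hs⟩ := Pool.Agent.K4H21.CT.exists_split_prime F 0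
    exact ⟨p, hp, hs, fun a π _ hπ _ => onPowers_of_onlyLefschetz Ω _ π (h p a π hπ)⟩
  tfae_have 2 → 3 := by
    rintro ⟨p, hp, hs, hall⟩
    exact condSub_of_propB (propB_of_all Ω p hs hall)
  tfae_have 3 → 4 := fun h => condDec_of_propB (propB_of_condSub h)
  tfae_have 4 → 3 := fun h => condSub_of_condDec h
  tfae_have 3 → 1 := fun h p _ a π hπ => all_of_condSub h Ω p a π hπ
  tfae_finish

end Pool.Agent.Results.MP_ee618e_ag.AllCMFields
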