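import Mathlib
import Pool.Agent.H21.NQ.Cls

/-!
# Newton polygons which force all Tate classes to be Lefschetz classes: composite dimensions

By Honda and Tate the simple abelian varieties over the finite field with `q` elements correspond to
the conjugacy classes of Weil `q`-numbers `π`, and (Weil, Tate) the Frobenius endomorphism acts
semisimply on the first cohomology with all conjugates of `π` as eigenvalues, with the same
multiplicity; the cohomology of an abelian variety is the exterior algebra of the first cohomology. By
Tate's theorem the Tate classes of degree two are linear combinations of classes of divisors. So the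
Tate conjecture is true for all powers of the abelian variety if all Tate classes (over all finite
extensions) are polynomials in Tate classes of degree two (`OnlyLefschetzOnPowers`).

Let `π` be a Weil `p ^ a`-number that generates a CM field `F` of degree `2 g` together with all its
powers. The slopes of its Newton polygon are `s 1, ..., s g` and `1 - s 1, ..., 1 - s g`
(`HasSlopes`), up to a common multiplicity. The polygon is called rigid if all such Weil numbers, for
all fields and all powers of `p`, have only Lefschetz classes on all powers of the variety. For `g`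
prime or at most four the rigid polygons are determined in `NewtonPolygons`. Here `g` is composite.
Put `m j = 1 - 2 s j`.

**Theorem.** Let `p` be any prime number.

1. Let `g = g₁ g₂` with `g₁, g₂ ≥ 2`. If the numbers `m j`, not all zero, can be arranged with
   suitable signs in `g₁` rows of `g₂` numbers such that all rows have the same sum (`EqualSums`),
   then the polygon is not rigid: for every `p` there are Weil numbers with these slopes and exotic
   Tate classes.
2. Let `g = ℓ ^ 2` for an odd prime `ℓ`. The polygon is rigid if and only if all slopes are `1 / 2`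
   (then there are no such `π`), or no signed sum of the `m j` is zero and there is no arrangement in
   `ℓ` rows of `ℓ` numbers as in 1.
3. Let all slopes be `0`, `1 / 2` or `1`, and let `f` be the number of the `j` with `s j` not `1 / 2`
   (the `p`-rank, divided by the multiplicity). Let `g = ℓ ^ k` for a prime `ℓ`. The polygon is rigid
   if and only if `f = 0`, or `g = 2`, or `f` is odd and (`ℓ = 2` or `k = 1` or `f < ℓ`). If `g > 3`
   is a multiple of three then the polygon is rigid if and only if `f ≤ 1`, or `g` is even and
   `f = g - 1`.
4. If all `s j` are equal to a number `c` different from `1 / 2` (for `c = 0` these are the ordinary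
   abelian varieties) then the polygon is rigid if and only if `g ≤ 1` or `g` is prime.
5. Let `g ≥ 1`. The following are equivalent: all polygons for which the `m j` are proportional to
   integers with an odd sum (`OddSum`) are rigid; all polygons with slopes `0`, `1 / 2`, `1` and
   odd `f` are rigid; `g` is a prime number or a power of two.

The proof. By Kronecker's theorem the multiplicative relations between the conjugates of `π` are
given by the linear relations between the translates of the slope function, an odd function on the
set of embeddings; all Tate classes are Lefschetz classes if and only if all odd relations come from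
coincidences between translates (`criterion` in the library of this project).

Part 1. There are totally real fields `K₁`, `K₂` of degrees `g₁`, `g₂` such that the Galois groups of
the normal closures are doubly transitive, `p` splits completely in both, and the compositum `K` has
degree `g₁ g₂` with the product of the groups as Galois group (`exists_grid`: a third auxiliary prime
makes the second field disjoint from the normal closure of the first one). Let `F = K(√(1 - 8 p))`.
The embeddings of `K` are the places of a table with `g₁` rows and `g₂` columns. The slope function is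
orthogonal to all differences of row vectors, because the rows have equal sums. After an exchange
of two entries or a change of two signs the translates of the slope function have no coincidences, so
all powers of `π` generate `F` (`not_rigid_grid`); if all row sums are zero, or if there are two rows,
then a signed sum is zero and the construction for that case is used.

Part 2. The Galois group acts on the `2 ℓ ^ 2` embeddings. A Sylow subgroup for `ℓ` has an orbit
of `ℓ ^ 2` elements, a set of representatives of the pairs, and its image in the permutations of this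
orbit contains an abelian regular group (`exists_regular`). A relation which is not zero has a
nonzero Fourier coefficient at a character `χ` of this group, and then the Fourier coefficients at
`χ` of all translates of the slope function vanish. If `χ` is trivial then a signed sum is zero. If
`χ` has order `ℓ` then the sums over the fibres of `χ` are equal (`Φ_ℓ` is irreducible): this is an
arrangement with equal sums. If `χ` has order `ℓ ^ 2` then all translates are periodic with the same
period, and there would be coincidences (`char_cases`, `sq_cases`).

Parts 3, 4, 5. If `g` is a power of a prime `ℓ` and no signed sum of the integers proportional to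
the `m j` is divisible by `ℓ`, then there are no relations: the relations modulo `ℓ` are a module over
a Sylow subgroup and contain an invariant vector (`noRel_of_mod`). For `f = g - 1`, `g` even, the
matrix of the translates of the slope function modulo two is the matrix of ones minus a permutation
matrix (`noRel_of_one_even`). The arrangements are constructed with row sums one
(`equalSums_of_pRank`).

Earlier work: the theorems of Tankeev, Ribet and Lenstra and Zarhin on prime dimensions, Lenstra's
degenerate CM types in composite dimensions, Zarhin's theorem on varieties of K3 type (`f = 1`), the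
results on angle ranks of Dupuy, Kedlaya and Zureick-Brown, and the congruence for prime powers in the
library (RigidSlopes). The classifications, the arrangements with equal sums and the constructions
for every `p` are new, to our knowledge.
-/

set_option autoImplicit false

universe u

namespace Pool.Agent.Results.MP_ee618e_ag.CompositeDimensions

open Pool.Agent.H21.NP Pool.Agent.H21.NQ

theorem result (Ω : Type u) [Field Ω] [IsAlgClosed Ω] [CharZero Ω] (p : ℕ) [Fact p.Prime] :
    (∀ (g₁ g₂ g : ℕ) (s : Fin g → ℚ), 2 ≤ g₁ → 2 ≤ g₂ → (∀ j, 0 ≤ s j ∧ s j ≤ 1) →
      (∃ j, s j ≠ 1 / 2) → EqualSums g₁ g₂ s → ¬ Rigid Ω p s) ∧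
    (∀ (ℓ g : ℕ) (s : Fin g → ℚ), ℓ.Prime → ℓ ≠ 2 → g = ℓ ^ 2 → (∀ j, 0 ≤ s j ∧ s j ≤ 1) →
      (Rigid Ω p s ↔ (∀ j, s j = 1 / 2) ∨ (¬ ZeroSum s ∧ ¬ EqualSums ℓ ℓ s))) ∧
    (∀ (g : ℕ) (s : Fin g → ℚ), (∀ j, s j = 0 ∨ s j = 1 / 2 ∨ s j = 1) →
      (∀ ℓ k : ℕ, ℓ.Prime → 1 ≤ k → g = ℓ ^ k →
        (Rigid Ω p s ↔ pRank s = 0 ∨ g = 2 ∨
          (Odd (pRank s) ∧ (ℓ = 2 ∨ k = 1 ∨ pRank s < ℓ)))) ∧
      (3 ∣ g → 3 < g → (Rigid Ω p s ↔ pRank s ≤ 1 ∨ (Even g ∧ pRank s = g - 1)))) ∧
    (∀ (g : ℕ) (c : ℚ), 0 ≤ c → c ≤ 1 → c ≠ 1 / 2 →
      (Rigid Ω p (fun _ : Fin g => c) ↔ g ≤ 1 ∨ g.Prime)) ∧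
    (∀ g : ℕ, 1 ≤ g →
      ((∀ s : Fin g → ℚ, (∀ j, 0 ≤ s j ∧ s j ≤ 1) → OddSum s → Rigid Ω p s) ↔
        g.Prime ∨ ∃ k, g = 2 ^ k) ∧
      ((∀ s : Fin g → ℚ, (∀ j, s j = 0 ∨ s j = 1 / 2 ∨ s j = 1) → Odd (pRank s) →
        Rigid Ω p s) ↔ g.Prime ∨ ∃ k, g = 2 ^ k)) := by
  have hdir : ∀ (g : ℕ), (g.Prime ∨ ∃ k, g = 2 ^ k) → ∀ s : Fin g → ℚ, OddSum s → Rigid Ω p s := by
    rintro g (hg | ⟨k, hk⟩) s h
    · exact rigid_of_prime_odd Ω p hg h
    · exact rigid_of_two_pow Ω p hk h
  have hconv : ∀ g : ℕ, 1 ≤ g → (∀ s : Fin g → ℚ, (∀ j, s j = 0 ∨ s j = 1 / 2 ∨ s j = 1) →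
      Odd (pRank s) → Rigid Ω p s) → g.Prime ∨ ∃ k, g = 2 ^ k := by
    intro g hg h
    by_contra hno
    rw [not_or] at hno
    obtain ⟨s, hs1, hs2, hs3⟩ := exists_odd_not_rigid Ω p hg hno.1 hno.2
    exact hs3 (h s hs1 hs2)
  refine ⟨?_, ?_, ?_, ?_, ?_⟩
  · intro g₁ g₂ g s h₁ h₂ hs hs' h
    exact not_rigid_of_equalSums Ω p h₁ h₂ s hs hs' h
  · intro ℓ g s hℓ hℓ2 hg hs
    have : Fact ℓ.Prime := ⟨hℓ⟩
    have hg3 : 3 ≤ g := by
      have := hℓ.two_le
      rw [hg]
      nlinarith
    constructor
    · intro hR
      by_contra hno
      rw [not_or] at hno
      obtain ⟨h1, h2⟩ := hno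
      push Not at h1
      have h3 : ¬ ZeroSum s := fun h => not_rigid_of_zeroSum Ω p hg3 s hs h1 h hR
      exact h2 ⟨h3, fun h => not_rigid_of_equalSums Ω p hℓ.two_le hℓ.two_le s hs h1 h hR⟩
    · rintro (h | ⟨h1, h2⟩)
      · exact rigid_of_noRel p Ω s fun ⟨j, hj⟩ => (hj (h j)).elim
      · exact rigid_of_noRel p Ω s fun _ => noRel_sq ℓ hℓ2 hg s h1 h2
  · intro g s hs
    exact ⟨fun ℓ k hℓ hk hg => rigid_iff_prime_pow Ω p ℓ k hℓ hk hg hs,
      fun h3 hg => rigid_iff_three Ω p h3 hg hs⟩
  · intro g c h0 h1 hc
    exact rigid_const Ω p c h0 h1 hc
  · intro g hg
    refine ⟨⟨fun h => hconv g hg fun s hs hodd => h s (bounds hs) (oddSum_of_pRank hs hodd),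
      fun h s _ hs => hdir g h s hs⟩, ⟨hconv g hg, fun h s hs hodd =>
        hdir g h s (oddSum_of_pRank hs hodd)⟩⟩

end Pool.Agent.Results.MP_ee618e_ag.CompositeDimensions
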