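import Mathlib
import Pool.Agent.H21.TC.Gal
import Pool.Graph.R_pool_sql_team_seeded_c8625f6e.K4H21.CT.SplitPrime

/-!
# The Galois CM fields for which all Tate classes are Lefschetz classes

By Honda and Tate the simple abelian varieties over the finite field with `q` elements correspond to
the conjugacy classes of Weil `q`-numbers `π`, and (Weil, Tate) the Frobenius endomorphism acts
semisimply on the first cohomology with all conjugates of `π` as eigenvalues, with the same
multiplicity; the cohomology of an abelian variety is the exterior algebra of the first cohomology. By
Tate's theorem the Tate classes of degree two are linear combinations of classes of divisors. So the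
Tate conjecture is true for all powers of the abelian variety if all Tate classes (over all finite
extensions) are polynomials in Tate classes of degree two (`OnlyLefschetz`).

**Theorem.** Let `K` be a CM field which is Galois over `ℚ`, with Galois group `G` and complex
conjugation `c`. The following are equivalent:

1. all Weil numbers of `K`, for all `q`, have only Lefschetz classes;
2. there is a prime `p` that splits completely in `K` such that all Weil `p ^ a`-numbers `π` of `K`
  with `ℚ(π ^ n) = K` for all `n` (the abelian variety is absolutely simple, and `K` is the centre of
  its endomorphism algebra) have only Lefschetz classes, on the powers of the abelian variety;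
3. every subfield `E ≠ K` of `K` that is not totally real is normal over `ℚ` and `[K : E] = 2`;
4. `G` is cyclic of order `2 ^ n` or a generalised quaternion group, or the product of such a group
  `Q` with a group of order two, and `c` is an element of `Q`.

There is no assumption about the slopes. If `K` is not of this kind there are exotic Tate classes
for every completely split prime.

The proof. By Kronecker's theorem the multiplicative relations between the conjugates of `π` are
given by the linear relations between the translates of the slope function `w`, an odd function on
`G` (`w (g c) = - w g`). All Tate classes are Lefschetz classes if and only if all odd relations come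
from coincidences of translates (`criterion`). If every nontrivial subgroup of `G` contains `c` then
`G` is a cyclic `2`-group or generalised quaternion, and the odd part of `ℚ[G]` is a division algebra,
which is a field or a quaternion algebra; for the products it is the product of two copies. If `H` is a
subgroup that does not contain `c`, with at least three elements, then
`w = 2 [1] - [a] - [b]` (made odd), with different `a, b ≠ 1` in `H`, is orthogonal to the translates
of the characteristic function of `H` (made odd). If `H = {1, h}` is not normal, `g h ≠ h g`, we take
`w = 4 (1 + h) + (1 + h) g (1 - h)` and the relation `4 (1 - h) - (1 + h) g (1 - h)`. In both cases the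
translates of `w` are different, and Weil numbers with given slopes at a completely split prime are
constructed from a generator of a power of a prime ideal (`exists_weil_slopes`).
-/

set_option autoImplicit false

universe u

namespace Pool.Agent.Results.MP_ee618e_ag.GaloisFields

open NumberField Module Pool.Agent.H21.TC

/-- The prime `p` splits completely in the number field `K`: there are `[K : ℚ]` embeddings of `K` in
the field of `p`-adic numbers. -/
def SplitsCompletely (p : ℕ) [Fact p.Prime] (K : Type) [Field K] [NumberField K] : Prop :=
  Nat.card (K →+* ℚ_[p]) = finrank ℚ K

theorem result (K : Type) [Field K] [NumberField K] [IsCMField K] [IsGalois ℚ K]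
    (Ω : Type u) [Field Ω] [IsAlgClosed Ω] [CharZero Ω] :
    List.TFAE
      [∀ (p : ℕ) [Fact p.Prime] (a : ℕ) (π : K), IsWeilNumber (p ^ a) π →
          OnlyLefschetz Ω (p ^ a) π,
        ∃ (p : ℕ) (_ : Fact p.Prime), SplitsCompletely p K ∧
          ∀ (a : ℕ) (π : K), 0 < a → IsWeilNumber (p ^ a) π →
            (∀ n : ℕ, 0 < n → IntermediateField.adjoin ℚ {π ^ n} = ⊤) →
            OnlyLefschetzOnPowers Ω (p ^ a) π,
        ∀ E : IntermediateField ℚ K, E ≠ ⊤ → ¬ IsTotallyReal E →
          finrank E K = 2 ∧ Normal ℚ E,
        IsKind (conjAut K)] := by
  classical
  have hcore := core (c := conjAut K) conjAut_comm conjAut_mul_self conjAut_ne_one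
  tfae_have 1 → 2 := by
    intro h
    obtain ⟨p, hp, -, hs⟩ := Pool.Agent.K4H21.CT.exists_split_prime K 0
    exact ⟨p, hp, hs, fun a π _ hπ _ => onPowers_of_onlyLefschetz Ω _ π (h p a π hπ)⟩
  tfae_have 2 → 3 := by
    rintro ⟨p, hp, hs, hall⟩
    have hne : Nonempty (K →+* ℚ_[p]) := by
      have h1 : Nat.card (K →+* ℚ_[p]) ≠ 0 := by
        rw [hs]
        exact finrank_pos.ne'
      exact (Nat.card_ne_zero.1 h1).1
    obtain ⟨y₀⟩ := hne
    have h1 := not_bad_of_all Ω p y₀ hall
    exact cond_iff.1 (hcore.2.1.1 (hcore.1.2 h1))
  tfae_have 3 → 4 := by
    intro h
    rw [isKind_iff conjAut_mul_self conjAut_ne_one]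
    exact hcore.2.2.1 (hcore.2.1.2 (cond_iff.2 h))
  tfae_have 4 → 1 := by
    intro h p _ a π hπ
    rw [isKind_iff conjAut_mul_self conjAut_ne_one] at h
    exact all_of_allGood (hcore.2.2.2 h) Ω p a π hπ
  tfae_finish

end Pool.Agent.Results.MP_ee618e_ag.GaloisFields
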