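import Mathlib
import Pool.Agent.H21.NP.Dir
import Pool.Agent.H21.NP.Quat
import Pool.Agent.H21.NP.Zero

/-!
# The Newton polygons which force all Tate classes to be Lefschetz classes

By Honda and Tate the simple abelian varieties over the finite field with `q` elements correspond to
the conjugacy classes of Weil `q`-numbers `π`, and (Weil, Tate) the Frobenius endomorphism acts
semisimply on the first cohomology with all conjugates of `π` as eigenvalues, with the same
multiplicity; the cohomology of an abelian variety is the exterior algebra of the first cohomology. By
Tate's theorem the Tate classes of degree two are linear combinations of classes of divisors. So the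
Tate conjecture is true for all powers of the abelian variety if all Tate classes (over all finite
extensions) are polynomials in Tate classes of degree two (`OnlyLefschetzOnPowers`).

Let `π` be a Weil `p ^ a`-number that generates a CM field `F` of degree `2 g` together with all its
powers (the abelian variety is absolutely simple and `F` is the centre of its endomorphism algebra).
The `p`-adic valuations of the conjugates of `π` (with `v (p ^ a) = 1`) are `s 1, ..., s g` and
`1 - s 1, ..., 1 - s g` (`HasSlopes`); these are the slopes of the Newton polygon of the abelian
variety, up to a common multiplicity. A polygon is called rigid if all such Weil numbers, for all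
fields and all powers of `p`, have only Lefschetz classes, on all powers of the variety.

**Theorem.** Let `p` be any prime number. Let `g` be a prime number or at most four. The polygon
with the slopes `s j`, `1 - s j` (`j = 1, ..., g`) is rigid if and only if

* all slopes are `1 / 2` (then there are no such `π`), or `g ≤ 2`, or
* no signed sum of the numbers `m j = 1 - 2 s j` is zero, and, if `g = 4`, there is no relation
  `m i ^ 2 + m j ^ 2 = m k ^ 2 + m l ^ 2` in which `i, j, k, l` are the four indices.

For every `g ≥ 3` a polygon with a signed sum zero, not all slopes being `1 / 2`, is not rigid.

The nonrigid polygons are treated by the construction of Weil numbers with exotic Tate classes, for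
every prime `p`.

The proof. By Kronecker's theorem the multiplicative relations between the conjugates of `π` are
given by the linear relations between the translates of the slope function, an odd function
on the set of embeddings. All Tate classes are Lefschetz classes if and only if all odd relations
come from coincidences between translates (`criterion`). A relation space of dimension `g - 1` gives
coincidences of all translates up to the sign, and then a power of `π` would be in a smaller field; a
relation space of dimension one contains a vector with entries `1` and `- 1` (the group acts
transitively on the pairs), so a signed sum is zero. If `g` is prime, an element of order `g`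
permutes the pairs cyclically, and the cyclotomic polynomial `Φ_g` is irreducible: the relations are
of dimension `0`, `1`, `g - 1`. If `g = 4` it remains to consider dimension two: then there is an
orthogonal symmetric matrix with zero diagonal and rational entries which is in the commutant of a
subgroup of index at most two (`Sq`), and the values of the slope function satisfy the relation
between squares.

Conversely, if a signed sum is zero then let `K₀` be totally real of degree `g` such that the Galois
group of the normal closure is doubly transitive and `p` splits completely in `K₀` (`exists_total`:
the minimal polynomial is an Eisenstein polynomial for one prime, is linear times irreducible modulo a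
second prime, splits over `ℚ_p` by Hensel's lemma and over `ℝ` by the choice of a large multiple of the
modulus), and let `F = K₀(√(1 - 8 p))`. The sign vector is the relation. If squares satisfy the
relation then let `F` be a Galois CM field with dihedral group of order eight in which `p` splits
completely and the central involution is the complex conjugation. The odd functions on the group are
the algebra of two by two matrices over `ℚ`, and the relation says that the slope function is not
invertible, after a change of the signs and of the order. Weil numbers with given slopes at a
completely split prime are constructed from a generator of a power of a prime ideal.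

Earlier work: for prime `g` the direct half is close to the theorems of Tankeev and of
Lenstra and Zarhin on prime dimensions, and to the results on angle ranks of Dupuy, Kedlaya and
Zureick-Brown. The library has the case of almost all Weil numbers in a Newton stratum (NewtonStrata)
and a congruence condition for `g` a power of a prime (RigidSlopes). The relation between squares,
the necessity of the two conditions and the constructions for every `p` are new, to our knowledge.
-/

set_option autoImplicit false

universe u

namespace Pool.Agent.Results.MP_ee618e_ag.NewtonPolygons

open Pool.Agent.H21.NP Pool.Agent.H21.TC

theorem result (Ω : Type u) [Field Ω] [IsAlgClosed Ω] [CharZero Ω] (p : ℕ) [Fact p.Prime]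
    (g : ℕ) (s : Fin g → ℚ) (hs : ∀ j, 0 ≤ s j ∧ s j ≤ 1) :
    (g.Prime ∨ g ≤ 4 →
      (Rigid Ω p s ↔ (∀ j, s j = 1 / 2) ∨ g ≤ 2 ∨ (¬ ZeroSum s ∧ ¬ SquareRel s))) ∧
    (3 ≤ g → (∃ j, s j ≠ 1 / 2) → ZeroSum s → ¬ Rigid Ω p s) := by
  have hz : 3 ≤ g → (∃ j, s j ≠ 1 / 2) → ZeroSum s → ¬ Rigid Ω p s := fun h1 h2 h3 =>
    not_rigid_of_zeroSum Ω p h1 s hs h2 h3
  refine ⟨fun hg => ⟨fun hR => ?_, fun hc => ?_⟩, hz⟩
  · by_contra hno
    rw [not_or, not_or] at hno
    obtain ⟨h1, h2, h3⟩ := hno
    push Not at h1
    have h4 : ¬ ZeroSum s := fun h4 => hz (by omega) h1 h4 hR
    exact h3 ⟨h4, fun h5 => not_rigid_of_square Ω p s hs h5 h4 hR⟩
  · intro F _ _ _ a π ha hπ hgen hsl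
    exact onPowers_of_onlyLefschetz Ω _ π (onlyLefschetz_of_cond p Ω a ha π hπ hgen s hsl hg hc)

end Pool.Agent.Results.MP_ee618e_ag.NewtonPolygons
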